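import Pool.Agent.H695R3.PP.Stmts

/-! Task `SAP` of project H695-LP: spectral averaging in probability. -/

set_option autoImplicit false

open scoped BigOperators ENNReal
open MeasureTheory

namespace Pool.Agent.H695R3.PP

theorem U_le (S : Set ℝ) : U S ≤ ENNReal.ofReal (1 / 2) * volume S := by
  unfold U
  rw [Measure.smul_apply, smul_eq_mul]
  gcongr
  exact Measure.restrict_le_self

theorem vol_affine (c ε : ℝ) (hε : 0 < ε) (T : Set ℝ) :
    volume {s : ℝ | c + ε * s ∈ T} = ENNReal.ofReal (1 / ε) * volume T := by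
  have h1 : {s : ℝ | c + ε * s ∈ T} = (ε * ·) ⁻¹' ((fun h => c + h) ⁻¹' T) := rfl
  rw [h1, Real.volume_preimage_mul_left hε.ne', measure_preimage_add, abs_of_pos (inv_pos.2 hε),
    one_div]

theorem taskSAP : TaskResample → TaskSA → TaskSAP := by
  intro hR hSA W ε κ a b m A B hε hκ hB hA hBA
  have hmap := hR ℤ (fun _ => ℝ) (fun _ => U) m
  have hmeas : Measurable (fun p : (ℤ → ℝ) × ℝ => Function.update p.1 m p.2) := measurable_update'
  have h1 : PZ B = ∫⁻ x, U {s | Function.update x m s ∈ B} ∂PZ := by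
    have h2 : PZ = Measure.map (fun p : (ℤ → ℝ) × ℝ => Function.update p.1 m p.2) (PZ.prod U) :=
      hmap.symm
    conv_lhs => rw [h2]
    rw [Measure.map_apply hmeas hB, Measure.prod_apply (hmeas hB)]
    rfl
  rw [h1]
  apply lintegral_mono
  intro x
  show U {s | Function.update x m s ∈ B} ≤ ENNReal.ofReal (1 / (2 * ε * κ)) * volume (A x)
  set T : Set ℝ := {t : ℝ | ∃ E ∈ A x, ∃ ψ,
    IsEig (Function.update (fun n => W n + ε * x n) m t) a b E ψ ∧ κ ≤ ψ m ^ 2} with hT
  have hsub : {s | Function.update x m s ∈ B} ⊆ {s : ℝ | W m + ε * s ∈ T} := by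
    intro s hs
    obtain ⟨E, hE, ψ, hψ, hk⟩ := hBA _ hs
    rw [hA] at hE
    refine ⟨E, hE, ψ, ?_, hk⟩
    have : (fun n => W n + ε * Function.update x m s n) =
        Function.update (fun n => W n + ε * x n) m (W m + ε * s) := by
      funext n
      by_cases hn : n = m
      · subst hn; simp
      · simp [Function.update_of_ne hn]
    rwa [this] at hψ
  calc U {s | Function.update x m s ∈ B}
      ≤ ENNReal.ofReal (1 / 2) * volume {s | Function.update x m s ∈ B} := U_le _
    _ ≤ ENNReal.ofReal (1 / 2) * volume {s : ℝ | W m + ε * s ∈ T} := by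
        gcongr
    _ = ENNReal.ofReal (1 / 2) * (ENNReal.ofReal (1 / ε) * volume T) := by
        rw [vol_affine _ _ hε]
    _ ≤ ENNReal.ofReal (1 / 2) * (ENNReal.ofReal (1 / ε) *
          (ENNReal.ofReal (1 / κ) * volume (A x))) := by
        gcongr
        exact hSA _ a b m (A x) κ hκ
    _ = ENNReal.ofReal (1 / (2 * ε * κ)) * volume (A x) := by
        rw [← mul_assoc, ← mul_assoc, ← ENNReal.ofReal_mul (by positivity),
          ← ENNReal.ofReal_mul (by positivity)]
        congr 2
        field_simp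

end Pool.Agent.H695R3.PP
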